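import Pool.Agent.Helper535.W

set_option autoImplicit false

namespace Pool.Agent.Results.MP_e02861_gt.GulkoImages

universe u

/-- `Z` is a Lindelöf Σ-space: `Z` is a continuous image of a Tychonoff space `P` which admits a
perfect map (continuous, closed, onto, with compact fibres) onto a separable metrizable space
`M`. -/
def LindelofSigma (Z : Type u) [TopologicalSpace Z] : Prop :=
  ∃ (P : Type u) (_ : TopologicalSpace P) (M : Type u) (_ : TopologicalSpace M),
    T35Space P ∧ TopologicalSpace.MetrizableSpace M ∧ TopologicalSpace.SeparableSpace M ∧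
    (∃ p : P → M, Continuous p ∧ IsClosedMap p ∧ Function.Surjective p ∧
      ∀ m, IsCompact (p ⁻¹' {m})) ∧
    ∃ q : P → Z, Continuous q ∧ Function.Surjective q

/-- `K` is Gul'ko compact: `K` is compact Hausdorff and the space of continuous real functions on
`K`, with the topology of pointwise convergence, is Lindelöf Σ. -/
def GulkoCompact (K : Type u) [TopologicalSpace K] : Prop :=
  CompactSpace K ∧ T2Space K ∧ LindelofSigma {g : K → ℝ // Continuous g}

/-- `X` is splittable over the class of Gul'ko compact spaces. -/
def SplittableOverGulko (X : Type u) [TopologicalSpace X] : Prop :=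
  ∀ A : Set X, ∃ (Y : Type u) (_ : TopologicalSpace Y), GulkoCompact Y ∧
    ∃ f : X → Y, Continuous f ∧ f ⁻¹' (f '' A) = A

/-- Every continuous image of a compact space splittable over Gul'ko compacta is splittable over
Gul'ko compacta. -/
theorem result :
    ∀ (X Z : Type u) [TopologicalSpace X] [CompactSpace X] [T2Space X] [TopologicalSpace Z]
      [T2Space Z] (g : X → Z), Continuous g → Function.Surjective g →
      SplittableOverGulko X → SplittableOverGulko Z := by
  intro X Z _ _ _ _ _ g hg hs h
  have hX : Pool.Agent.Helper535.GSplit.{u, u} X := by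
    apply Pool.Agent.Helper535.gsplit_of
    intro A
    obtain ⟨Y, tY, ⟨hY1, hY2, P, tP, M, tM, -, hM1, hM2, ⟨p, hp1, hp2, -, hp3⟩, q, hq1, hq2⟩,
      f, hf, hfA⟩ := h A
    exact ⟨Y, tY, hY1, hY2, Pool.Agent.Helper535.usco_of_perfect p hp1 hp2 hp3 q hq1 hq2,
      f, hf, hfA⟩
  obtain ⟨E, _, _, _, hE⟩ := hX.gs
  have hZ := ((Pool.Agent.Helper535.LSg_continuous hE).image_space g hg hs).perfect
  have hcZ : CompactSpace Z := by
    constructor
    have := (isCompact_univ (X := X)).image hg
    rwa [Set.image_univ, hs.range_eq] at this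
  intro A
  exact ⟨Z, inferInstance, ⟨hcZ, inferInstance, hZ⟩, id, continuous_id, by simp⟩

end Pool.Agent.Results.MP_e02861_gt.GulkoImages
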